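import Pool.Agent.Helper35.HSF.StH
import Pool.Agent.Helper78.MS.M_CT0

/-!
Project HSF (MP_925021_gt), module CTN: frozen families and continuity up to the initial time, all
dimensions (copy of `Helper78/MS/M_CT0.lean`, `n` in place of `2`).
-/

set_option autoImplicit false

namespace Helper81.HSF

open Helper35.HSF Helper35.MS Helper35.PI Helper35.PI2 Helper32.CL Helper78.MS
open scoped ContDiff Manifold Topology
open MeasureTheory Set Filter

/-- CTN -/
theorem hCTN (hI3J : StI3J) (_hI2J : StI2J) (hFR : StFR) : StCTN := by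
  intro n N M _ _ _ I F hF
  have hfro : ∀ t ∈ I, IsImmJ (n := n) univ (fun q (_ : ℝ) => F q t) := by
    intro t ht
    refine ⟨isOpen_univ, ?_, ?_⟩
    · have h2 : ContMDiffOn ((𝓡 n).prod 𝓘(ℝ, ℝ)) ((𝓡 n).prod 𝓘(ℝ, ℝ)) ∞
          (fun z : M × ℝ => (z.1, t)) (univ ×ˢ univ) :=
        ContMDiffOn.prodMk contMDiff_fst.contMDiffOn contMDiffOn_const
      have h3 := hF.smooth.comp h2 (fun z _ => ⟨mem_univ _, ht⟩)
      exact h3
    · intro p s _
      exact hF.imm p t ht
  refine ⟨fun t ht => ⟨hfro t ht, fun q s => ⟨rfl, rfl, rfl, rfl⟩⟩, ?_⟩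
  intro hI
  have hc0 : CSTJ I F := hF.smooth.continuousOn
  -- the chart
  have key : ∀ p₀ : M,
      ContinuousOn (fun z : M × ℝ => HH (n := n) F z.1 z.2)
        ((chartAt (EE n) p₀).source ×ˢ I) ∧
      ContinuousOn (fun z : M × ℝ => AA (n := n) F z.1 z.2)
        ((chartAt (EE n) p₀).source ×ˢ I) := by
    intro p₀
    set T : Set (EE n) := (chartAt (EE n) p₀).target with hTdef
    have hTo : IsOpen T := (chartAt (EE n) p₀).open_target
    set f : EE n × ℝ → EE N := fun z => F ((chartAt (EE n) p₀).symm z.1) z.2 with hf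
    have hsm : ContDiffOn ℝ ∞ f (T ×ˢ I) := by
      have h1 : ContMDiffOn (𝓡 n) (𝓡 n) ∞ (chartAt (EE n) p₀).symm (chartAt (EE n) p₀).target :=
        contMDiffOn_chart_symm
      have h2 : ContMDiffOn ((𝓡 n).prod 𝓘(ℝ, ℝ)) ((𝓡 n).prod 𝓘(ℝ, ℝ)) ∞
          (fun z : EE n × ℝ => ((chartAt (EE n) p₀).symm z.1, z.2))
          ((chartAt (EE n) p₀).target ×ˢ I) := by
        refine ContMDiffOn.prodMk ?_ ?_
        · exact h1.comp contMDiff_fst.contMDiffOn (fun z hz => hz.1)
        · exact contMDiff_snd.contMDiffOn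
      have h3 : ContMDiffOn ((𝓡 n).prod 𝓘(ℝ, ℝ)) 𝓘(ℝ, EE N) ∞ f
          ((chartAt (EE n) p₀).target ×ˢ I) := by
        have := hF.smooth.comp h2 (fun z hz => ⟨mem_univ _, hz.2⟩)
        exact this
      rw [← contMDiffOn_iff_contDiffOn]
      rw [modelWithCornersSelf_prod, ← chartedSpaceSelf_prod]
      exact h3
    have hUD : UniqueDiffOn ℝ (T ×ˢ I) := hTo.uniqueDiffOn.prod hI
    -- derivatives
    have hs1 : ∀ i : Fin n, ContDiffOn ℝ ∞
        (fun z => fderivWithin ℝ f (T ×ˢ I) z (ee i, 0)) (T ×ˢ I) := fun i =>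
      within_smooth hUD hsm (ee i, 0)
    have hs2 : ∀ i j : Fin n, ContDiffOn ℝ ∞
        (fun z => fderivWithin ℝ (fun z => fderivWithin ℝ f (T ×ˢ I) z (ee j, 0))
          (T ×ˢ I) z (ee i, 0)) (T ×ˢ I) := fun i j =>
      within_smooth hUD (hs1 j) (ee i, 0)
    have he1 : ∀ z ∈ T ×ˢ I, ∀ i : Fin n, dv1 (fun y => f (y, z.2)) z.1 i =
        fderivWithin ℝ f (T ×ˢ I) z (ee i, 0) := by
      intro z hz i
      exact slice_fderiv hTo hsm hz.1 hz.2 (ee i)
    have he2 : ∀ z ∈ T ×ˢ I, ∀ i j : Fin n, dv2 (fun y => f (y, z.2)) z.1 i j =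
        fderivWithin ℝ (fun z => fderivWithin ℝ f (T ×ˢ I) z (ee j, 0))
          (T ×ˢ I) z (ee i, 0) := by
      intro z hz i j
      have h1 : (fun y' : EE n => fderiv ℝ (fun y => f (y, z.2)) y' (ee j)) =ᶠ[𝓝 z.1]
          (fun y' => (fun w : EE n × ℝ => fderivWithin ℝ f (T ×ˢ I) w (ee j, 0)) (y', z.2)) := by
        filter_upwards [hTo.mem_nhds hz.1] with y' hy'
        exact slice_fderiv hTo hsm hy' hz.2 (ee j)
      have h2 : dv2 (fun y => f (y, z.2)) z.1 i j =
          fderiv ℝ (fun y' => (fun w : EE n × ℝ => fderivWithin ℝ f (T ×ˢ I) w (ee j, 0))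
            (y', z.2)) z.1 (ee i) := by
        unfold dv2
        rw [h1.fderiv_eq]
      rw [h2]
      exact slice_fderiv hTo (hs1 j) hz.1 hz.2 (ee i)
    have hdet : ∀ z ∈ T ×ˢ I, (gram (fun y => f (y, z.2)) z.1).det ≠ 0 := by
      intro z hz
      have hq : (chartAt (EE n) p₀).symm z.1 ∈ (chartAt (EE n) p₀).source :=
        (chartAt (EE n) p₀).map_target hz.1
      have h1 := (hI3J n N M univ _ (hfro z.2 hz.2) p₀ ((chartAt (EE n) p₀).symm z.1) 0
        (mem_univ _) hq).1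
      rw [(chartAt (EE n) p₀).right_inv hz.1] at h1
      exact (hFR n N _ _ h1).2.1.ne_zero
    have hgeo := cont_geo (X := ↥(T ×ˢ I)) (fun x => fun y => f (y, x.1.2)) (fun x => x.1.1)
      (fun i => by
        have h := continuousOn_iff_continuous_domRestrict.mp (hs1 i).continuousOn
        refine h.congr fun x => ?_
        exact (he1 x.1 x.2 i).symm)
      (fun i j => by
        have h := continuousOn_iff_continuous_domRestrict.mp (hs2 i j).continuousOn
        refine h.congr fun x => ?_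
        exact (he2 x.1 x.2 i j).symm)
      (fun x => hdet x.1 x.2)
    have hm : ContinuousOn (fun z : EE n × ℝ => mcv (fun y => f (y, z.2)) z.1) (T ×ˢ I) :=
      continuousOn_iff_continuous_domRestrict.mpr hgeo.1
    have hn : ContinuousOn (fun z : EE n × ℝ => nsq (fun y => f (y, z.2)) z.1) (T ×ˢ I) :=
      continuousOn_iff_continuous_domRestrict.mpr hgeo.2.1
    have hg : ContinuousOn (fun z : M × ℝ => (chartAt (EE n) p₀ z.1, z.2))
        ((chartAt (EE n) p₀).source ×ˢ I) :=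
      ((chartAt (EE n) p₀).continuousOn.comp continuousOn_fst (fun z hz => hz.1)).prodMk
        continuousOn_snd
    have hmaps : MapsTo (fun z : M × ℝ => (chartAt (EE n) p₀ z.1, z.2))
        ((chartAt (EE n) p₀).source ×ˢ I) (T ×ˢ I) := fun z hz =>
      ⟨(chartAt (EE n) p₀).map_source hz.1, hz.2⟩
    have hI3 : ∀ z ∈ (chartAt (EE n) p₀).source ×ˢ I, _ := fun z hz =>
      hI3J n N M univ _ (hfro z.2 hz.2) p₀ z.1 0 (mem_univ _) hz.1
    refine ⟨?_, ?_⟩
    · exact (hm.comp hg hmaps).congr fun z hz => (hI3 z hz).2.1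
    · exact (hn.comp hg hmaps).congr fun z hz => (hI3 z hz).2.2.1
  have fin : ∀ {W : Type} [TopologicalSpace W] (g : M → ℝ → W),
      (∀ p₀ : M, ContinuousOn (fun z : M × ℝ => g z.1 z.2)
        ((chartAt (EE n) p₀).source ×ˢ I)) → CSTJ I g := by
    intro W _ g hg z hz
    have h1 := hg z.1 z ⟨mem_chart_source (EE n) z.1, hz.2⟩
    refine h1.mono_of_mem_nhdsWithin ?_
    have h2 : ((chartAt (EE n) z.1).source ×ˢ (univ : Set ℝ)) ∈ 𝓝 z :=
      ((chartAt (EE n) z.1).open_source.prod isOpen_univ).mem_nhds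
        ⟨mem_chart_source (EE n) z.1, mem_univ _⟩
    have h3 := inter_mem_nhdsWithin ((univ : Set M) ×ˢ I) h2
    refine mem_of_superset h3 ?_
    rintro w ⟨hw1, hw2⟩
    exact ⟨hw2.1, hw1.2⟩
  exact ⟨hc0, fin _ fun p₀ => (key p₀).1, fin _ fun p₀ => (key p₀).2⟩

end Helper81.HSF
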