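import Pool.Agent.Helper35.HSF.StC

/-!
# Project HSF (MP_925021_gt), module LRG: a large curvature somewhere makes all curvatures large
-/

set_option autoImplicit false

namespace Helper81.HSF

open Helper35.HSF Helper35.MS Helper35.PI Helper35.PI2 Helper32.CL

/-- LRG. -/
theorem hLRG (hCVX : StCVX) : StLRG := by
  intro n h1n M _ _ _ _ _ _ J F ν hF t ht hinj k l B hk0 hk1 hl hP hB hlB hx y z hz
  obtain ⟨x₀, c, hc, hBc⟩ := hx
  obtain ⟨r, hrd⟩ : ∃ r, r = rr n t := ⟨_, rfl⟩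
  have hr : 0 < r := by
    rw [hrd]
    exact hF.r0 t ht
  rw [← hrd] at hlB
  have hl0 : 0 < l := by rw [hl]; linarith
  have hl1 : l < 1 / 2 := by rw [hl]; linarith
  have h1k : 1 - k = 2 * l := by rw [hl]; ring
  obtain ⟨s, hs⟩ : ∃ s, s = r * B ^ 2 := ⟨_, rfl⟩
  have hs0 : 0 < s := by rw [hs]; positivity
  rw [← hs] at hlB
  -- powers
  have e3 : 2 ≤ l ^ 3 * s := by
    have h1 : l ^ 4 * s = l * (l ^ 3 * s) := by ring
    have h2 : 0 < l ^ 3 * s := by positivity
    nlinarith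
  have e2 : 4 ≤ l ^ 2 * s := by
    have h1 : l ^ 3 * s = l * (l ^ 2 * s) := by ring
    have h2 : 0 < l ^ 2 * s := by positivity
    nlinarith
  have e1 : 8 ≤ l * s := by
    have h1 : l ^ 2 * s = l * (l * s) := by ring
    have h2 : 0 < l * s := by positivity
    nlinarith
  have hq0 : 0 < l * B := by positivity
  have key : ∀ z₂ ∈ ZS n F ν x₀ t, l * B ≤ z₂ := by
    intro z₂ hz₂
    by_contra hcon
    push Not at hcon
    have h1 := hP x₀ (hn F ν x₀ t c) (Or.inr ⟨c, hc, rfl⟩) z₂ hz₂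
    rw [← hrd, lt_div_iff₀ hr, h1k] at h1
    obtain ⟨a, ha⟩ : ∃ a, a = hn F ν x₀ t c := ⟨_, rfl⟩
    rw [← ha] at h1 hBc
    have ha0 : 0 < a := lt_of_lt_of_le hB hBc
    have h2 : a * z₂ ≤ a * (l * B) := mul_le_mul_of_nonneg_left hcon.le ha0.le
    have h3 : l * (B * B) ≤ 2 * l * a ^ 2 - a * (l * B) := by
      have h4 : 0 ≤ l * ((a - B) * (2 * a + B)) :=
        mul_nonneg hl0.le (mul_nonneg (by linarith) (by linarith))
      nlinarith
    have h5 : (l * (B * B)) * r ≤ (2 * l * a ^ 2 - a * z₂) * r :=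
      mul_le_mul_of_nonneg_right (by linarith) hr.le
    have h6 : l * (B * B) * r = l * s := by rw [hs]; ring
    linarith
  have h4 := hCVX n h1n M J F ν hF t ht hinj k hk0 hk1 hP x₀ (l * B) hq0
    (by
      rw [← hrd]
      have h5 : r * (l * B) ^ 2 = l ^ 2 * s := by rw [hs]; ring
      linarith)
    (by
      rw [← hrd, h1k]
      have h5 : 2 * l * (r * (l * B) ^ 2) = 2 * (l ^ 3 * s) := by rw [hs]; ring
      linarith)
    key y z hz
  rw [← hrd, h1k] at h4
  have h5 : k / (r * (l * B)) ≤ l * (l * B) := by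
    rw [div_le_iff₀ (by positivity)]
    have h6 : l * (l * B) * (r * (l * B)) = l ^ 3 * s := by rw [hs]; ring
    linarith
  have h6 : l ^ 2 * B = 2 * l * (l * B) - l * (l * B) := by ring
  linarith

end Helper81.HSF
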